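import Mathlib

set_option autoImplicit false

open Real

namespace Pool.Agent.Lib.MP_bea7cd_co

abbrev E2 : Type := EuclideanSpace ℝ (Fin 2)

/-- the point with (signed) polar coordinates `ρ`, `τ` -/
noncomputable def pt (ρ τ : ℝ) : E2 := !₂[ρ * cos τ, ρ * sin τ]

@[simp] lemma pt_zero (ρ τ : ℝ) : pt ρ τ 0 = ρ * cos τ := rfl
@[simp] lemma pt_one (ρ τ : ℝ) : pt ρ τ 1 = ρ * sin τ := rfl

lemma dist_pt (ρ τ σ υ : ℝ) :
    dist (pt ρ τ) (pt σ υ) = √(ρ ^ 2 + σ ^ 2 - 2 * ρ * σ * cos (τ - υ)) := by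
  rw [EuclideanSpace.dist_eq, Fin.sum_univ_two]
  congr 1
  simp only [pt_zero, pt_one, Real.dist_eq, sq_abs]
  rw [cos_sub]
  have h1 := sin_sq_add_cos_sq τ
  have h2 := sin_sq_add_cos_sq υ
  linear_combination (ρ ^ 2) * h1 + (σ ^ 2) * h2

/-- if a linear functional is strictly maximised over `S` at `p`, then `p` is not in the convex
hull of the other points -/
lemma notMem_hull (S : Set E2) (p : E2) (c s : ℝ)
    (h : ∀ q ∈ S, q ≠ p → q 0 * c + q 1 * s < p 0 * c + p 1 * s) :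
    p ∉ convexHull ℝ (S \ {p}) := by
  intro hp
  have hlin : IsLinearMap ℝ (fun q : E2 => q 0 * c + q 1 * s) := by
    constructor
    · intro x y
      simp only [PiLp.add_apply]
      ring
    · intro a x
      simp only [PiLp.smul_apply, smul_eq_mul]
      ring
  have hconv := convex_halfSpace_lt hlin (p 0 * c + p 1 * s)
  have hsub : S \ {p} ⊆ {q : E2 | q 0 * c + q 1 * s < p 0 * c + p 1 * s} := by
    intro q hq
    exact h q hq.1 (fun e => hq.2 e)
  have hlt : p 0 * c + p 1 * s < p 0 * c + p 1 * s := convexHull_min hsub hconv hp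
  exact lt_irrefl _ hlt

/-- counting ordered pairs at a given distance -/
lemma count {d : ℝ} {V J : Type} [Fintype J] (p : V → E2) (hp : Function.Injective p)
    (g : J → V × V) (hg : Function.Injective g) (hswap : ∀ j j', g j ≠ (g j').swap)
    (hd : ∀ j, dist (p (g j).1) (p (g j).2) = d)
    (S : Finset E2) (hS : ∀ v, p v ∈ S)
    (_inst : DecidableEq E2) (inst2 : DecidablePred fun pq : E2 × E2 => dist pq.1 pq.2 = d) :
    2 * Fintype.card J ≤ (S.offDiag.filter (fun pq => dist pq.1 pq.2 = d)).card := by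
  classical
  let F : J × Bool → E2 × E2 := fun x =>
    if x.2 then (p (g x.1).1, p (g x.1).2) else (p (g x.1).2, p (g x.1).1)
  have hF : Function.Injective F := by
    rintro ⟨j, b⟩ ⟨j', b'⟩ h
    cases b <;> cases b'
    · simp only [F, Bool.false_eq_true, if_false, Prod.mk.injEq] at h
      have h1 := hp h.1
      have h2 := hp h.2
      have : g j = g j' := Prod.ext h2 h1
      rw [hg this]
    · simp only [F, Bool.false_eq_true, if_false, if_true, Prod.mk.injEq] at h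
      exact absurd (Prod.ext (hp h.2) (hp h.1) : g j = (g j').swap) (hswap j j')
    · simp only [F, Bool.false_eq_true, if_false, if_true, Prod.mk.injEq] at h
      exact absurd (Prod.ext (hp h.1) (hp h.2) : g j = (g j').swap) (hswap j j')
    · simp only [F, if_true, Prod.mk.injEq] at h
      have h1 := hp h.1
      have h2 := hp h.2
      have : g j = g j' := Prod.ext h1 h2
      rw [hg this]
  have hcard : Fintype.card (J × Bool) = 2 * Fintype.card J := by
    rw [Fintype.card_prod, Fintype.card_bool, mul_comm]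
  rw [← hcard, ← Finset.card_univ]
  apply Finset.card_le_card_of_injOn F
  · rintro ⟨j, b⟩ -
    have hne : (g j).1 ≠ (g j).2 := by
      intro e
      apply hswap j j
      ext
      · exact e
      · exact e.symm
    have hne' : p (g j).1 ≠ p (g j).2 := fun e => hne (hp e)
    rw [Finset.mem_coe, Finset.mem_filter, Finset.mem_offDiag]
    cases b
    · simp only [F, Bool.false_eq_true, if_false]
      refine ⟨⟨hS _, hS _, hne'.symm⟩, ?_⟩
      rw [dist_comm]
      exact hd j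
    · simp only [F, if_true]
      exact ⟨⟨hS _, hS _, hne'⟩, hd j⟩
  · exact hF.injOn

/-! ### The parameters `θ` and `r` -/

lemma pi_bounds : 3.1415 < π ∧ π < 3.1416 := ⟨pi_gt_d4, pi_lt_d4⟩

/-- the value of `r` as a function of `θ` -/
noncomputable def R (t : ℝ) : ℝ := -cos (3 / 2 * t) + √(cos (3 / 2 * t) ^ 2 + 1 - 2 * cos (1000 * t))

noncomputable def G (t : ℝ) : ℝ :=
  cos (999 * t) - cos (1000 * t) - R t * (cos (3 / 2 * t) - cos (107 / 2 * t))

lemma cont_G : Continuous G := by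
  unfold G R
  fun_prop

/-- basic bounds in the parameter interval -/
lemma bounds {t : ℝ} (h0 : π / 2 / 1000 ≤ t) (h1 : t ≤ (π / 2 + 0.08) / 1000) :
    0.00157 < t ∧ t < 0.001651 ∧ cos (1000 * t) ≤ 0 ∧ -0.08 ≤ cos (1000 * t) ∧
    0.999 ≤ cos (3 / 2 * t) ∧ cos (3 / 2 * t) ≤ 1 := by
  obtain ⟨hp1, hp2⟩ := pi_bounds
  have ht0 : 0.00157 < t := by linarith
  have ht1 : t < 0.001651 := by linarith
  refine ⟨ht0, ht1, ?_, ?_, ?_, cos_le_one _⟩
  · apply cos_nonpos_of_pi_div_two_le_of_le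
    · linarith
    · linarith
  · have : cos (1000 * t) = - sin (1000 * t - π / 2) := by
      rw [sin_sub_pi_div_two, neg_neg]
    rw [this]
    have h2 : sin (1000 * t - π / 2) ≤ 1000 * t - π / 2 := sin_le (by linarith)
    linarith
  · have := one_sub_sq_div_two_le_cos (x := 3 / 2 * t)
    nlinarith

lemma R_bounds {t : ℝ} (h0 : π / 2 / 1000 ≤ t) (h1 : t ≤ (π / 2 + 0.08) / 1000) :
    0.4 < R t ∧ R t < 1 / 2 ∧
      2 - 2 * cos (1000 * t) = 1 + R t ^ 2 + 2 * R t * cos (3 / 2 * t) := by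
  obtain ⟨ht0, ht1, hc1, hc2, hc3, hc4⟩ := bounds h0 h1
  set c := cos (3 / 2 * t) with hc
  set f := cos (1000 * t) with hf
  have hnn : 0 ≤ c ^ 2 + 1 - 2 * f := by nlinarith [sq_nonneg c]
  have hR : R t = -c + √(c ^ 2 + 1 - 2 * f) := rfl
  set w := √(c ^ 2 + 1 - 2 * f) with hw
  have hw2 : w ^ 2 = c ^ 2 + 1 - 2 * f := sq_sqrt hnn
  have hw0 : 0 ≤ w := sqrt_nonneg _
  refine ⟨?_, ?_, ?_⟩
  · rw [hR]
    have : c + 0.4 < w := by
      apply lt_of_pow_lt_pow_left₀ 2 hw0
      rw [hw2]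
      nlinarith
    linarith
  · rw [hR]
    have : w < c + 1 / 2 := by
      apply lt_of_pow_lt_pow_left₀ 2 (by linarith)
      rw [hw2]
      nlinarith
    linarith
  · rw [hR]
    nlinarith

lemma G_pos : 0 < G (π / 2 / 1000) := by
  obtain ⟨hp1, hp2⟩ := pi_bounds
  set t := π / 2 / 1000 with ht
  obtain ⟨ht0, ht1, hc1, hc2, hc3, hc4⟩ := bounds (t := t) le_rfl (by rw [ht]; linarith)
  have ht2 : t < 0.0015709 := by rw [ht]; linarith
  have h1000 : cos (1000 * t) = 0 := by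
    rw [show 1000 * t = π / 2 by rw [ht]; ring]
    exact cos_pi_div_two
  have h999 : cos (999 * t) = sin t := by
    rw [show 999 * t = π / 2 - t by rw [ht]; ring]
    exact cos_pi_div_two_sub t
  have hsin : t - t ^ 3 / 6 < sin t := sin_gt_sub_cube (by linarith)
  have hR : R t ≤ 0.42 := by
    unfold R
    rw [h1000]
    have h1 : √(cos (3 / 2 * t) ^ 2 + 1 - 2 * 0) ≤ cos (3 / 2 * t) + 0.42 := by
      apply sqrt_le_iff.2
      constructor
      · linarith
      · nlinarith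
    linarith
  have hR0 : 0 < R t := by
    have := (R_bounds (t := t) le_rfl (by rw [ht]; linarith)).1
    linarith
  have hc : cos (3 / 2 * t) - cos (107 / 2 * t) ≤ (107 / 2 * t) ^ 2 / 2 := by
    have := one_sub_sq_div_two_le_cos (x := 107 / 2 * t)
    linarith
  have hprod : R t * (cos (3 / 2 * t) - cos (107 / 2 * t)) ≤ 0.42 * ((107 / 2 * t) ^ 2 / 2) := by
    apply le_trans (mul_le_mul_of_nonneg_left hc hR0.le)
    exact mul_le_mul_of_nonneg_right hR (by positivity)
  unfold G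
  rw [h1000, h999]
  have h3 : 0.42 * ((107 / 2 * t) ^ 2 / 2) < t - t ^ 3 / 6 := by
    have : 0.42 * ((107 / 2 * t) ^ 2 / 2) = t * (601.0725 * t) := by ring
    rw [this]
    have h4 : 601.0725 * t < 1 - t ^ 2 / 6 := by nlinarith
    nlinarith
  linarith

lemma G_neg : G ((π / 2 + 0.08) / 1000) < 0 := by
  obtain ⟨hp1, hp2⟩ := pi_bounds
  set t := (π / 2 + 0.08) / 1000 with ht
  obtain ⟨ht0, ht1, hc1, hc2, hc3, hc4⟩ := bounds (t := t) (by rw [ht]; linarith) le_rfl
  have ht2 : 0.0016507 < t := by rw [ht]; linarith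
  have hdiff : cos (999 * t) - cos (1000 * t) ≤ t := by
    rw [cos_sub_cos]
    have e1 : (999 * t - 1000 * t) / 2 = -(t / 2) := by ring
    rw [e1, sin_neg]
    have h1 : sin (t / 2) ≤ t / 2 := sin_le (by linarith)
    have h2 : 0 ≤ sin (t / 2) := sin_nonneg_of_nonneg_of_le_pi (by linarith) (by linarith)
    have h3 : sin ((999 * t + 1000 * t) / 2) ≤ 1 := sin_le_one _
    nlinarith
  have h1000 : cos (1000 * t) = - sin 0.08 := by
    rw [show 1000 * t = π / 2 + 0.08 by rw [ht]; ring]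
    rw [add_comm, cos_add_pi_div_two]
  have hsin : 0.079 < sin 0.08 := by
    have := sin_gt_sub_cube (x := 0.08) (by norm_num)
    norm_num at this ⊢
    linarith
  have hR : 0.465 ≤ R t := by
    unfold R
    rw [h1000]
    have h1 : cos (3 / 2 * t) + 0.465 ≤ √(cos (3 / 2 * t) ^ 2 + 1 - 2 * -sin 0.08) := by
      apply le_sqrt_of_sq_le
      nlinarith
    linarith
  have hc3' : 1 - (3 / 2 * t) ^ 2 / 2 ≤ cos (3 / 2 * t) := one_sub_sq_div_two_le_cos
  have hc2' : cos (107 / 2 * t) ≤ 1 - 0.00388 := by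
    have e : cos (107 / 2 * t) = 1 - 2 * sin (107 / 4 * t) ^ 2 := by
      rw [show 107 / 2 * t = 2 * (107 / 4 * t) by ring, cos_two_mul, cos_sq']
      ring
    rw [e]
    have h1 := sin_gt_sub_cube (x := 107 / 4 * t) (by linarith)
    have h2 : 0.0441 < sin (107 / 4 * t) := by
      have hx0 : 0.04415 < 107 / 4 * t := by linarith
      have hx1 : 107 / 4 * t < 0.0442 := by linarith
      have h3 : (107 / 4 * t) ^ 3 ≤ 0.0442 ^ 3 := by
        apply pow_le_pow_left₀ (by linarith) hx1.le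
      norm_num at h3 ⊢
      linarith
    nlinarith
  have hprod : 0.465 * 0.00386 ≤ R t * (cos (3 / 2 * t) - cos (107 / 2 * t)) := by
    apply mul_le_mul hR _ (by norm_num) (by linarith)
    nlinarith
  unfold G
  norm_num at hprod
  linarith

/-- Existence of the parameters `t` (the angular step) and `r` (the radius of the second arc). -/
lemma exists_params : ∃ t r : ℝ, 0.00157 < t ∧ t < 0.001651 ∧ 0.4 < r ∧ r < 1 / 2 ∧
    2 - 2 * cos (1000 * t) = 1 + r ^ 2 + 2 * r * cos (3 / 2 * t) ∧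
    2 - 2 * cos (999 * t) = 1 + r ^ 2 + 2 * r * cos (107 / 2 * t) := by
  have hle : π / 2 / 1000 ≤ (π / 2 + 0.08) / 1000 := by linarith
  have hmem : (0 : ℝ) ∈ Set.Icc (G ((π / 2 + 0.08) / 1000)) (G (π / 2 / 1000)) :=
    ⟨G_neg.le, G_pos.le⟩
  obtain ⟨t, ⟨h0, h1⟩, hG⟩ := intermediate_value_Icc' hle cont_G.continuousOn hmem
  obtain ⟨ht0, ht1, -, -, -, -⟩ := bounds h0 h1
  obtain ⟨hr0, hr1, he⟩ := R_bounds h0 h1
  refine ⟨t, R t, ht0, ht1, hr0, hr1, he, ?_⟩
  unfold G at hG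
  linarith

/-- Existence of the radius of the two additional points. -/
lemma exists_rho {t r : ℝ} (ht0 : 0 < t) (ht1 : t < 0.002) (hr0 : 0 < r) (hr1 : r < 1 / 2) :
    ∃ ρ : ℝ, 1 < ρ ∧ ρ < 1.1 ∧ ρ * cos (1 / 2 * t) < 1 ∧
      ρ ^ 2 + r ^ 2 + 2 * ρ * r * cos t = 1 + r ^ 2 + 2 * r * cos (1 / 2 * t) := by
  set c := cos (1 / 2 * t) with hc
  have hct : cos t = 2 * c ^ 2 - 1 := by
    rw [hc, ← cos_two_mul]; congr 1; ring
  have hc1 : c < 1 := by
    have h := cos_lt_cos_of_nonneg_of_le_pi (x := 0) (y := 1 / 2 * t) le_rfl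
      (by linarith [pi_gt_three]) (by linarith)
    rwa [cos_zero] at h
  have hc2 : 0.99 < c := by
    have := one_sub_sq_div_two_le_cos (x := 1 / 2 * t)
    nlinarith
  let f : ℝ → ℝ := fun x => x ^ 2 + 2 * x * r * cos t - (1 + 2 * r * c)
  have hf : Continuous f := by fun_prop
  have hf1 : f 1 < 0 := by
    simp only [f]
    rw [hct]
    nlinarith [mul_pos hr0 (sub_pos.2 hc1)]
  have hf2 : 0 < f (1 / c) := by
    simp only [f]
    rw [hct]
    have hcpos : 0 < c := by linarith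
    have e : (1 / c) ^ 2 + 2 * (1 / c) * r * (2 * c ^ 2 - 1) - (1 + 2 * r * c) =
        (1 - c ^ 2) * (1 - 2 * r * c) / c ^ 2 := by
      field_simp
      ring
    rw [e]
    apply div_pos _ (by positivity)
    apply mul_pos
    · nlinarith
    · nlinarith
  have hle : 1 ≤ 1 / c := by
    rw [le_div_iff₀ (by linarith)]
    linarith
  obtain ⟨ρ, ⟨h1, h2⟩, hρ⟩ := intermediate_value_Ioo hle hf.continuousOn (show (0 : ℝ) ∈ Set.Ioo (f 1) (f (1 / c)) from ⟨hf1, hf2⟩)
  refine ⟨ρ, h1, ?_, ?_, ?_⟩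
  · refine h2.trans ?_
    rw [div_lt_iff₀ (by linarith)]
    linarith
  · rwa [lt_div_iff₀ (by linarith)] at h2
  · simp only [f] at hρ
    linarith

/-! ### The configuration -/

/-- index type of the 2219 points -/
abbrev V : Type := Fin 1109 ⊕ Fin 1108 ⊕ Fin 2

/-- the points: `A i` on the unit circle, `B j` on the opposite side on the circle of radius `r`,
and two further points `Z l` slightly outside the unit circle between points of `A`. -/
noncomputable def pos (t r ρ : ℝ) : V → E2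
  | .inl i => pt 1 ((i.val : ℝ) * t)
  | .inr (.inl j) => pt (-r) (((j.val : ℝ) + 1 / 2) * t)
  | .inr (.inr l) => pt ρ (((l.val : ℝ) + 3 / 2) * t)

lemma val_pt (ρ τ υ : ℝ) : pt ρ τ 0 * cos υ + pt ρ τ 1 * sin υ = ρ * cos (τ - υ) := by
  rw [pt_zero, pt_one, cos_sub]; ring

lemma val_pt_neg (ρ τ υ : ℝ) :
    pt ρ τ 0 * (-cos υ) + pt ρ τ 1 * (-sin υ) = -(ρ * cos (τ - υ)) := by
  rw [pt_zero, pt_one, cos_sub]; ring

lemma cos_lt_one_of {x : ℝ} (h0 : 0 < |x|) (h1 : |x| ≤ 2) : cos x < 1 := by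
  rw [← cos_abs, ← cos_zero]
  exact cos_lt_cos_of_nonneg_of_le_pi le_rfl (by linarith [pi_gt_three]) h0

lemma cos_le_of {x y : ℝ} (h : 0 ≤ y) (h0 : y ≤ |x|) (h1 : |x| ≤ 2) : cos x ≤ cos y := by
  rw [← cos_abs x]
  exact cos_le_cos_of_nonneg_of_le_pi h (by linarith [pi_gt_three]) h0

lemma cos_ge_of {x : ℝ} (h1 : |x| ≤ 1.83) : -0.27 ≤ cos x := by
  obtain ⟨hp1, hp2⟩ := pi_bounds
  rw [← cos_abs]
  have h2 : cos 1.83 ≤ cos |x| :=
    cos_le_cos_of_nonneg_of_le_pi (abs_nonneg x) (by linarith) h1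
  have h3 : cos (1.83 : ℝ) = - sin (1.83 - π / 2) := by
    rw [sin_sub_pi_div_two, neg_neg]
  have h4 : sin (1.83 - π / 2) ≤ 1.83 - π / 2 := sin_le (by linarith)
  linarith

/-- the hypotheses on the parameters -/
structure Good (t r ρ : ℝ) : Prop where
  t0 : 0 < t
  t1 : t < 0.001651
  r0 : 0.4 < r
  r1 : r < 1 / 2
  ρ1 : 1 < ρ
  ρ2 : ρ < 1.1
  ρc : ρ * cos (1 / 2 * t) < 1
  e1 : 2 - 2 * cos (1000 * t) = 1 + r ^ 2 + 2 * r * cos (3 / 2 * t)
  e2 : 2 - 2 * cos (999 * t) = 1 + r ^ 2 + 2 * r * cos (107 / 2 * t)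
  e3 : ρ ^ 2 + r ^ 2 + 2 * ρ * r * cos t = 1 + r ^ 2 + 2 * r * cos (1 / 2 * t)

lemma exists_good : ∃ t r ρ : ℝ, Good t r ρ := by
  obtain ⟨t, r, ht0, ht1, hr0, hr1, e1, e2⟩ := exists_params
  obtain ⟨ρ, h1, h2, h3, h4⟩ := exists_rho (t := t) (r := r) (by linarith) (by linarith)
    (by linarith) hr1
  exact ⟨t, r, ρ, by linarith, ht1, hr0, hr1, h1, h2, h3, e1, e2, h4⟩

lemma abs_mul_le {x t b : ℝ} (ht0 : 0 < t) (ht1 : t < 0.001651) (hx : |x| ≤ b) :
    |x * t| ≤ b * 0.001651 := by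
  rw [abs_mul, abs_of_pos ht0]
  have := abs_nonneg x
  nlinarith

lemma abs_mul_ge {x t b : ℝ} (ht0 : 0 < t) (hx : b ≤ |x|) : b * t ≤ |x * t| := by
  rw [abs_mul, abs_of_pos ht0]
  exact mul_le_mul_of_nonneg_right hx ht0.le

lemma expose {t r ρ : ℝ} (H : Good t r ρ) (u : V) : ∃ c s : ℝ, ∀ v, v ≠ u →
    pos t r ρ v 0 * c + pos t r ρ v 1 * s < pos t r ρ u 0 * c + pos t r ρ u 1 * s := by
  obtain ⟨t0, t1, r0, r1, ρ1, ρ2, ρc, -, -, -⟩ := H
  rcases u with i | j | l
  · refine ⟨cos ((i.val : ℝ) * t), sin ((i.val : ℝ) * t), ?_⟩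
    rintro (i' | j' | l') hne
    · simp only [pos]
      rw [val_pt, val_pt, sub_self, cos_zero, ← sub_mul]
      have hi := i.isLt
      have hi' := i'.isLt
      have hne' : (i'.val : ℤ) ≠ i.val := by
        intro e
        apply hne
        congr 1
        exact Fin.ext (by omega)
      have h1 : (1 : ℝ) ≤ |(i'.val : ℝ) - i.val| := by
        have : (1 : ℤ) ≤ |(i'.val : ℤ) - i.val| := Int.one_le_abs (by omega)
        exact_mod_cast this
      have h2 : |(i'.val : ℝ) - i.val| ≤ 1108 := by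
        have : |(i'.val : ℤ) - i.val| ≤ 1108 := by
          rw [abs_le]; omega
        exact_mod_cast this
      have h3 := abs_mul_ge t0 h1
      have h4 := abs_mul_le t0 t1 h2
      have h5 := cos_lt_one_of (x := ((i'.val : ℝ) - i.val) * t) (by linarith) (by linarith)
      linarith
    · simp only [pos]
      rw [val_pt, val_pt, sub_self, cos_zero]
      have := neg_one_le_cos (((j'.val : ℝ) + 1 / 2) * t - (i.val : ℝ) * t)
      nlinarith
    · simp only [pos]
      rw [val_pt, val_pt, sub_self, cos_zero, ← sub_mul]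
      have hi := i.isLt
      have hl := l'.isLt
      have h1 : (1 / 2 : ℝ) ≤ |(l'.val : ℝ) + 3 / 2 - i.val| := by
        have : (1 : ℤ) ≤ |2 * (l'.val : ℤ) + 3 - 2 * i.val| := Int.one_le_abs (by omega)
        have h : (1 : ℝ) ≤ |2 * (l'.val : ℝ) + 3 - 2 * i.val| := by exact_mod_cast this
        have e : 2 * (l'.val : ℝ) + 3 - 2 * i.val = 2 * ((l'.val : ℝ) + 3 / 2 - i.val) := by ring
        rw [e, abs_mul, abs_two] at h
        linarith
      have h2 : |(l'.val : ℝ) + 3 / 2 - i.val| ≤ 1108 := by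
        have : |2 * (l'.val : ℤ) + 3 - 2 * i.val| ≤ 2216 := by
          rw [abs_le]; omega
        have h : |2 * (l'.val : ℝ) + 3 - 2 * i.val| ≤ 2216 := by exact_mod_cast this
        have e : 2 * (l'.val : ℝ) + 3 - 2 * i.val = 2 * ((l'.val : ℝ) + 3 / 2 - i.val) := by ring
        rw [e, abs_mul, abs_two] at h
        linarith
      have h3 := abs_mul_ge t0 h1
      have h4 := abs_mul_le t0 t1 h2
      have h5 := cos_le_of (x := ((l'.val : ℝ) + 3 / 2 - i.val) * t) (y := 1 / 2 * t)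
        (by linarith) h3 (by linarith)
      have h6 : ρ * cos (((l'.val : ℝ) + 3 / 2 - i.val) * t) ≤ ρ * cos (1 / 2 * t) :=
        mul_le_mul_of_nonneg_left h5 (by linarith)
      linarith
  · refine ⟨-cos (((j.val : ℝ) + 1 / 2) * t), -sin (((j.val : ℝ) + 1 / 2) * t), ?_⟩
    rintro (i' | j' | l') hne
    · simp only [pos]
      rw [val_pt_neg, val_pt_neg, sub_self, cos_zero, ← sub_mul]
      have hi := j.isLt
      have hl := i'.isLt
      have h2 : |(i'.val : ℝ) - ((j.val : ℝ) + 1 / 2)| ≤ 1107.5 := by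
        have : |2 * (i'.val : ℤ) - 2 * j.val - 1| ≤ 2215 := by
          rw [abs_le]; omega
        have h : |2 * (i'.val : ℝ) - 2 * j.val - 1| ≤ 2215 := by exact_mod_cast this
        have e : 2 * (i'.val : ℝ) - 2 * j.val - 1 = 2 * ((i'.val : ℝ) - ((j.val : ℝ) + 1 / 2)) := by
          ring
        rw [e, abs_mul, abs_two] at h
        linarith
      have h4 := abs_mul_le t0 t1 h2
      have h5 := cos_ge_of (x := ((i'.val : ℝ) - ((j.val : ℝ) + 1 / 2)) * t) (by linarith)
      linarith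
    · simp only [pos]
      rw [val_pt_neg, val_pt_neg, sub_self, cos_zero, ← sub_mul]
      have hi := j.isLt
      have hi' := j'.isLt
      have hne' : (j'.val : ℤ) ≠ j.val := by
        intro e
        apply hne
        congr 2
        exact Fin.ext (by omega)
      have h1 : (1 : ℝ) ≤ |(j'.val : ℝ) - j.val| := by
        have : (1 : ℤ) ≤ |(j'.val : ℤ) - j.val| := Int.one_le_abs (by omega)
        exact_mod_cast this
      have h2 : |(j'.val : ℝ) - j.val| ≤ 1108 := by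
        have : |(j'.val : ℤ) - j.val| ≤ 1108 := by
          rw [abs_le]; omega
        exact_mod_cast this
      have h3 := abs_mul_ge t0 h1
      have h4 := abs_mul_le t0 t1 h2
      have e : ((j'.val : ℝ) + 1 / 2 - ((j.val : ℝ) + 1 / 2)) = (j'.val : ℝ) - j.val := by ring
      rw [e]
      have h5 := cos_lt_one_of (x := ((j'.val : ℝ) - j.val) * t) (by linarith) (by linarith)
      nlinarith
    · simp only [pos]
      rw [val_pt_neg, val_pt_neg, sub_self, cos_zero, ← sub_mul]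
      have hi := j.isLt
      have hl := l'.isLt
      have e : ((l'.val : ℝ) + 3 / 2 - ((j.val : ℝ) + 1 / 2)) = (l'.val : ℝ) + 1 - j.val := by ring
      rw [e]
      have h2 : |(l'.val : ℝ) + 1 - j.val| ≤ 1107.5 := by
        have : |(l'.val : ℤ) + 1 - j.val| ≤ 1107 := by
          rw [abs_le]; omega
        have h : |(l'.val : ℝ) + 1 - j.val| ≤ 1107 := by exact_mod_cast this
        linarith
      have h4 := abs_mul_le t0 t1 h2
      have h5 := cos_ge_of (x := ((l'.val : ℝ) + 1 - j.val) * t) (by linarith)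
      rcases le_total 0 (cos (((l'.val : ℝ) + 1 - j.val) * t)) with h6 | h6
      · have : 0 ≤ ρ * cos (((l'.val : ℝ) + 1 - j.val) * t) := mul_nonneg (by linarith) h6
        linarith
      · nlinarith
  · refine ⟨cos (((l.val : ℝ) + 3 / 2) * t), sin (((l.val : ℝ) + 3 / 2) * t), ?_⟩
    rintro (i' | j' | l') hne
    · simp only [pos]
      rw [val_pt, val_pt, sub_self, cos_zero]
      have := cos_le_one ((i'.val : ℝ) * t - ((l.val : ℝ) + 3 / 2) * t)
      linarith
    · simp only [pos]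
      rw [val_pt, val_pt, sub_self, cos_zero]
      have := neg_one_le_cos (((j'.val : ℝ) + 1 / 2) * t - ((l.val : ℝ) + 3 / 2) * t)
      nlinarith
    · simp only [pos]
      rw [val_pt, val_pt, sub_self, cos_zero, ← sub_mul]
      have hi := l.isLt
      have hi' := l'.isLt
      have hne' : (l'.val : ℤ) ≠ l.val := by
        intro e
        apply hne
        congr 2
        exact Fin.ext (by omega)
      have h1 : (1 : ℝ) ≤ |(l'.val : ℝ) - l.val| := by
        have : (1 : ℤ) ≤ |(l'.val : ℤ) - l.val| := Int.one_le_abs (by omega)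
        exact_mod_cast this
      have h2 : |(l'.val : ℝ) - l.val| ≤ 1108 := by
        have : |(l'.val : ℤ) - l.val| ≤ 1108 := by
          rw [abs_le]; omega
        exact_mod_cast this
      have h3 := abs_mul_ge t0 h1
      have h4 := abs_mul_le t0 t1 h2
      have e : ((l'.val : ℝ) + 3 / 2 - ((l.val : ℝ) + 3 / 2)) = (l'.val : ℝ) - l.val := by ring
      rw [e]
      have h5 := cos_lt_one_of (x := ((l'.val : ℝ) - l.val) * t) (by linarith) (by linarith)
      nlinarith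

lemma pos_injective {t r ρ : ℝ} (H : Good t r ρ) : Function.Injective (pos t r ρ) := by
  intro u v h
  by_contra hne
  obtain ⟨c, s, hcs⟩ := expose H u
  have := hcs v (fun e => hne e.symm)
  rw [h] at this
  exact lt_irrefl _ this

lemma dist_AA (t r ρ : ℝ) (i j : Fin 1109) :
    dist (pos t r ρ (.inl i)) (pos t r ρ (.inl j)) =
      √(2 - 2 * cos (((i.val : ℝ) - j.val) * t)) := by
  simp only [pos]
  rw [dist_pt, ← sub_mul]
  congr 1
  ring

lemma dist_AB (t r ρ : ℝ) (i : Fin 1109) (j : Fin 1108) :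
    dist (pos t r ρ (.inl i)) (pos t r ρ (.inr (.inl j))) =
      √(1 + r ^ 2 + 2 * r * cos (((i.val : ℝ) - j.val - 1 / 2) * t)) := by
  simp only [pos]
  rw [dist_pt, ← sub_mul, show (i.val : ℝ) - ((j.val : ℝ) + 1 / 2) = (i.val : ℝ) - j.val - 1 / 2 by
    ring]
  congr 1
  ring

lemma dist_ZB (t r ρ : ℝ) (l : Fin 2) (j : Fin 1108) :
    dist (pos t r ρ (.inr (.inr l))) (pos t r ρ (.inr (.inl j))) =
      √(ρ ^ 2 + r ^ 2 + 2 * ρ * r * cos (((l.val : ℝ) + 1 - j.val) * t)) := by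
  simp only [pos]
  rw [dist_pt, ← sub_mul, show (l.val : ℝ) + 3 / 2 - ((j.val : ℝ) + 1 / 2) =
    (l.val : ℝ) + 1 - j.val by ring]
  congr 1
  ring

/-- the pairs at the first distance -/
def g1 : Fin 109 ⊕ Fin 1107 ⊕ Fin 1107 → V × V
  | .inl i => (.inl ⟨i.val, by omega⟩, .inl ⟨i.val + 1000, by omega⟩)
  | .inr (.inl j) => (.inl ⟨j.val + 2, by omega⟩, .inr (.inl ⟨j.val, by omega⟩))
  | .inr (.inr j) => (.inl ⟨j.val, by omega⟩, .inr (.inl ⟨j.val + 1, by omega⟩))

/-- the pairs at the second distance -/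
def g2 : Fin 110 ⊕ Fin 1055 ⊕ Fin 1055 → V × V
  | .inl i => (.inl ⟨i.val, by omega⟩, .inl ⟨i.val + 999, by omega⟩)
  | .inr (.inl j) => (.inl ⟨j.val + 54, by omega⟩, .inr (.inl ⟨j.val, by omega⟩))
  | .inr (.inr j) => (.inl ⟨j.val, by omega⟩, .inr (.inl ⟨j.val + 53, by omega⟩))

/-- the pairs at the third distance -/
def g3 : Fin 1108 ⊕ Fin 1108 ⊕ Fin 2 ⊕ Fin 2 → V × V
  | .inl j => (.inl ⟨j.val, by omega⟩, .inr (.inl j))
  | .inr (.inl j) => (.inl ⟨j.val + 1, by omega⟩, .inr (.inl j))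
  | .inr (.inr (.inl l)) => (.inr (.inr l), .inr (.inl ⟨l.val, by omega⟩))
  | .inr (.inr (.inr l)) => (.inr (.inr l), .inr (.inl ⟨l.val + 2, by omega⟩))

lemma g1_inj : Function.Injective g1 := by
  rintro (i | i | i) (j | j | j) h <;>
    simp only [g1, Prod.mk.injEq, Sum.inl.injEq, Sum.inr.injEq, Fin.mk.injEq, reduceCtorEq,
      and_false, false_and] at h
  · congr 1; exact Fin.ext h.1
  · congr 2; exact Fin.ext (by omega)
  · omega
  · omega
  · congr 2; exact Fin.ext h.1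

lemma g2_inj : Function.Injective g2 := by
  rintro (i | i | i) (j | j | j) h <;>
    simp only [g2, Prod.mk.injEq, Sum.inl.injEq, Sum.inr.injEq, Fin.mk.injEq, reduceCtorEq,
      and_false, false_and] at h
  · congr 1; exact Fin.ext h.1
  · congr 2; exact Fin.ext (by omega)
  · omega
  · omega
  · congr 2; exact Fin.ext h.1

lemma g3_inj : Function.Injective g3 := by
  rintro (i | i | i | i) (j | j | j | j) h <;>
    simp only [g3, Prod.mk.injEq, Sum.inl.injEq, Sum.inr.injEq, Fin.mk.injEq, Fin.ext_iff,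
      reduceCtorEq, and_false, false_and] at h
  · congr 1; exact Fin.ext h.1
  · omega
  · omega
  · congr 2; exact Fin.ext h.2
  · congr 3; exact Fin.ext h.1
  · omega
  · omega
  · congr 3; exact Fin.ext h.1

lemma g1_swap : ∀ j j', g1 j ≠ (g1 j').swap := by
  rintro (i | i | i) (j | j | j) h <;>
    simp only [g1, Prod.swap, Prod.mk.injEq, Sum.inl.injEq, Sum.inr.injEq, Fin.mk.injEq,
      reduceCtorEq, and_false, false_and] at h
  omega

lemma g2_swap : ∀ j j', g2 j ≠ (g2 j').swap := by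
  rintro (i | i | i) (j | j | j) h <;>
    simp only [g2, Prod.swap, Prod.mk.injEq, Sum.inl.injEq, Sum.inr.injEq, Fin.mk.injEq,
      reduceCtorEq, and_false, false_and] at h
  omega

lemma g3_swap : ∀ j j', g3 j ≠ (g3 j').swap := by
  rintro (i | i | i | i) (j | j | j | j) h <;>
    simp only [g3, Prod.swap, Prod.mk.injEq, Sum.inl.injEq, Sum.inr.injEq, Fin.mk.injEq,
      reduceCtorEq, and_false, false_and] at h

lemma g1_dist {t r ρ : ℝ} (H : Good t r ρ) (j : Fin 109 ⊕ Fin 1107 ⊕ Fin 1107) :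
    dist (pos t r ρ (g1 j).1) (pos t r ρ (g1 j).2) = √(1 + r ^ 2 + 2 * r * cos (3 / 2 * t)) := by
  rcases j with i | j | j
  · have h := dist_AA t r ρ ⟨i.val, by omega⟩ ⟨i.val + 1000, by omega⟩
    have e : ((i.val : ℝ) - ((i.val + 1000 : ℕ) : ℝ)) * t = -(1000 * t) := by push_cast; ring
    simp only at h
    rw [e, cos_neg, H.e1] at h
    exact h
  · have h := dist_AB t r ρ ⟨j.val + 2, by omega⟩ ⟨j.val, by omega⟩
    have e : (((j.val + 2 : ℕ) : ℝ) - (j.val : ℝ) - 1 / 2) * t = 3 / 2 * t := by push_cast; ring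
    simp only at h
    rw [e] at h
    exact h
  · have h := dist_AB t r ρ ⟨j.val, by omega⟩ ⟨j.val + 1, by omega⟩
    have e : ((j.val : ℝ) - ((j.val + 1 : ℕ) : ℝ) - 1 / 2) * t = -(3 / 2 * t) := by push_cast; ring
    simp only at h
    rw [e, cos_neg] at h
    exact h

lemma g2_dist {t r ρ : ℝ} (H : Good t r ρ) (j : Fin 110 ⊕ Fin 1055 ⊕ Fin 1055) :
    dist (pos t r ρ (g2 j).1) (pos t r ρ (g2 j).2) =
      √(1 + r ^ 2 + 2 * r * cos (107 / 2 * t)) := by
  rcases j with i | j | j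
  · have h := dist_AA t r ρ ⟨i.val, by omega⟩ ⟨i.val + 999, by omega⟩
    have e : ((i.val : ℝ) - ((i.val + 999 : ℕ) : ℝ)) * t = -(999 * t) := by push_cast; ring
    simp only at h
    rw [e, cos_neg, H.e2] at h
    exact h
  · have h := dist_AB t r ρ ⟨j.val + 54, by omega⟩ ⟨j.val, by omega⟩
    have e : (((j.val + 54 : ℕ) : ℝ) - (j.val : ℝ) - 1 / 2) * t = 107 / 2 * t := by
      push_cast; ring
    simp only at h
    rw [e] at h
    exact h
  · have h := dist_AB t r ρ ⟨j.val, by omega⟩ ⟨j.val + 53, by omega⟩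
    have e : ((j.val : ℝ) - ((j.val + 53 : ℕ) : ℝ) - 1 / 2) * t = -(107 / 2 * t) := by
      push_cast; ring
    simp only at h
    rw [e, cos_neg] at h
    exact h

lemma g3_dist {t r ρ : ℝ} (H : Good t r ρ) (j : Fin 1108 ⊕ Fin 1108 ⊕ Fin 2 ⊕ Fin 2) :
    dist (pos t r ρ (g3 j).1) (pos t r ρ (g3 j).2) = √(1 + r ^ 2 + 2 * r * cos (1 / 2 * t)) := by
  rcases j with j | j | l | l
  · have h := dist_AB t r ρ ⟨j.val, by omega⟩ j
    have e : ((j.val : ℝ) - (j.val : ℝ) - 1 / 2) * t = -(1 / 2 * t) := by ring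
    simp only at h
    rw [e, cos_neg] at h
    exact h
  · have h := dist_AB t r ρ ⟨j.val + 1, by omega⟩ j
    have e : (((j.val + 1 : ℕ) : ℝ) - (j.val : ℝ) - 1 / 2) * t = 1 / 2 * t := by push_cast; ring
    simp only at h
    rw [e] at h
    exact h
  · have h := dist_ZB t r ρ l ⟨l.val, by omega⟩
    have e : ((l.val : ℝ) + 1 - (l.val : ℝ)) * t = t := by ring
    simp only at h
    rw [e, H.e3] at h
    exact h
  · have h := dist_ZB t r ρ l ⟨l.val + 2, by omega⟩
    have e : ((l.val : ℝ) + 1 - ((l.val + 2 : ℕ) : ℝ)) * t = -t := by push_cast; ring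
    simp only at h
    rw [e, cos_neg, H.e3] at h
    exact h

lemma card_V : Fintype.card V = 2219 := by
  rw [Fintype.card_sum, Fintype.card_sum, Fintype.card_fin, Fintype.card_fin, Fintype.card_fin]

lemma card_J1 : 2 * Fintype.card (Fin 109 ⊕ Fin 1107 ⊕ Fin 1107) = 4646 := by
  rw [Fintype.card_sum, Fintype.card_sum, Fintype.card_fin, Fintype.card_fin]

lemma card_J2 : 2 * Fintype.card (Fin 110 ⊕ Fin 1055 ⊕ Fin 1055) = 4440 := by
  rw [Fintype.card_sum, Fintype.card_sum, Fintype.card_fin, Fintype.card_fin]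

lemma card_J3 : 2 * Fintype.card (Fin 1108 ⊕ Fin 1108 ⊕ Fin 2 ⊕ Fin 2) = 4440 := by
  rw [Fintype.card_sum, Fintype.card_sum, Fintype.card_sum, Fintype.card_fin, Fintype.card_fin]

/-- the three distances are different -/
lemma dist_ne {t r ρ : ℝ} (H : Good t r ρ) :
    √(1 + r ^ 2 + 2 * r * cos (3 / 2 * t)) ≠ √(1 + r ^ 2 + 2 * r * cos (107 / 2 * t)) ∧
    √(1 + r ^ 2 + 2 * r * cos (3 / 2 * t)) ≠ √(1 + r ^ 2 + 2 * r * cos (1 / 2 * t)) ∧
    √(1 + r ^ 2 + 2 * r * cos (107 / 2 * t)) ≠ √(1 + r ^ 2 + 2 * r * cos (1 / 2 * t)) := by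
  obtain ⟨t0, t1, r0, r1, -, -, -, -, -, -⟩ := H
  obtain ⟨hp1, hp2⟩ := pi_bounds
  have hc1 : cos (3 / 2 * t) < cos (1 / 2 * t) :=
    cos_lt_cos_of_nonneg_of_le_pi (by linarith) (by linarith) (by linarith)
  have hc2 : cos (107 / 2 * t) < cos (3 / 2 * t) :=
    cos_lt_cos_of_nonneg_of_le_pi (by linarith) (by linarith) (by linarith)
  have hpos : ∀ x, 0 ≤ 1 + r ^ 2 + 2 * r * cos x := by
    intro x
    have := neg_one_le_cos x
    nlinarith
  have hne : ∀ x y, cos x < cos y →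
      √(1 + r ^ 2 + 2 * r * cos x) ≠ √(1 + r ^ 2 + 2 * r * cos y) := by
    intro x y hxy e
    rw [sqrt_inj (hpos x) (hpos y)] at e
    have : 2 * r * (cos y - cos x) = 0 := by linarith
    rcases mul_eq_zero.1 this with h | h <;> linarith
  exact ⟨(hne _ _ hc2).symm, hne _ _ hc1, hne _ _ (hc2.trans hc1)⟩

theorem main :
    ∃ n : ℕ, ∃ S : Finset E2,
      S.card = n ∧
      (∀ p ∈ S, p ∉ convexHull ℝ ((S : Set E2) \ {p})) ∧
      ∃ d₁ d₂ d₃ : ℝ, d₁ ≠ d₂ ∧ d₁ ≠ d₃ ∧ d₂ ≠ d₃ ∧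
        ∀ (_inst : DecidableEq E2) (d : ℝ) (_ : d = d₁ ∨ d = d₂ ∨ d = d₃)
          (_inst2 : DecidablePred fun pq : E2 × E2 => dist pq.1 pq.2 = d),
        2 * n < (S.offDiag.filter (fun pq => dist pq.1 pq.2 = d)).card := by
  classical
  obtain ⟨t, r, ρ, H⟩ := exists_good
  have hinj := pos_injective H
  have hexp := expose H
  obtain ⟨S, hSmem⟩ : ∃ S : Finset E2, S = Finset.univ.image (pos t r ρ) := ⟨_, rfl⟩
  have hS : ∀ v, pos t r ρ v ∈ S := fun v => by
    rw [hSmem]; exact Finset.mem_image_of_mem _ (Finset.mem_univ v)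
  have hcard : S.card = 2219 := by
    rw [hSmem, Finset.card_image_of_injective _ hinj, Finset.card_univ, card_V]
  obtain ⟨h12, h13, h23⟩ := dist_ne H
  refine ⟨2219, S, hcard, ?_, √(1 + r ^ 2 + 2 * r * cos (3 / 2 * t)),
    √(1 + r ^ 2 + 2 * r * cos (107 / 2 * t)), √(1 + r ^ 2 + 2 * r * cos (1 / 2 * t)),
    h12, h13, h23, ?_⟩
  · intro p hp
    rw [hSmem] at hp
    obtain ⟨u, -, rfl⟩ := Finset.mem_image.1 hp
    obtain ⟨c, s, hcs⟩ := hexp u
    apply notMem_hull _ _ c s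
    intro q hq hqp
    rw [Finset.mem_coe, hSmem] at hq
    obtain ⟨v, -, rfl⟩ := Finset.mem_image.1 hq
    exact hcs v (fun e => hqp (by rw [e]))
  · rintro _inst d hd _inst2
    rcases hd with rfl | rfl | rfl
    · refine lt_of_lt_of_le ?_
        (count (pos t r ρ) hinj g1 g1_inj g1_swap (g1_dist H) S hS _inst _inst2)
      rw [card_J1]; norm_num
    · refine lt_of_lt_of_le ?_
        (count (pos t r ρ) hinj g2 g2_inj g2_swap (g2_dist H) S hS _inst _inst2)
      rw [card_J2]; norm_num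
    · refine lt_of_lt_of_le ?_
        (count (pos t r ρ) hinj g3 g3_inj g3_swap (g3_dist H) S hS _inst _inst2)
      rw [card_J3]; norm_num

end Pool.Agent.Lib.MP_bea7cd_co
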